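import Pool.Agent.R340.SG.Arc
import Pool.Agent.R340.MI.Good

set_option autoImplicit false

/-!
The arc inequality for exponents all of whose conjugates are the weights of stable parabolic bundles,
and its form for arithmetic progressions modulo the integers.
-/

open Finset

namespace Pool.Agent.R340.SG

open Pool.Agent.Y227.SS Pool.Agent.R340.SY
open Pool.Agent.R340.MI (stableWeights_sum)

variable {m n : ℕ} {lam : Fin m → Fin n → ℚ} {phi : Fin n → ℚ}

/-- At least `n` of the fractional parts of the `u D x l` are greater than `γ x`, for all common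
denominators `q` of the `D x l`, all `u` prime to `q` and all families of numbers `γ x ≥ 0` with sum
one. -/
def ArcAll (D : Option (Fin m) → Fin n → ℚ) : Prop :=
  ∀ q : ℕ, 0 < q → (∀ x l, ∃ z : ℤ, (q : ℚ) * D x l = z) → ∀ u : ℤ, IsCoprime u (q : ℤ) →
    ∀ γ : Option (Fin m) → ℚ, (∀ x, 0 ≤ γ x) → ∑ x, γ x = 1 →
      n ≤ ∑ x, (univ.filter fun l => γ x < Int.fract ((u : ℚ) * D x l)).card

/-- The number of the `D x l` which are not congruent modulo the integers to one of the numbers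
`0, δ, 2 δ, …, L x δ`. -/
def outside (D : Option (Fin m) → Fin n → ℚ) (δ : ℚ) (L : Option (Fin m) → ℕ) : ℕ :=
  ∑ x, (univ.filter fun l => ∀ j : ℕ, j ≤ L x → (D x l - j * δ).den ≠ 1).card

lemma weights_sum {B : ℕ} (hst : ∀ a : ℤ, IsCoprime a (B : ℤ) →
    StableWeights ℂ (fun j l => (a : ℝ) * lam j l) (fun l => (a : ℝ) * phi l)) :
    ∃ F : ℤ, ∑ j, ∑ l, lam j l = ∑ l, phi l + F := by
  obtain ⟨F, hF⟩ := stableWeights_sum (hst 1 isCoprime_one_left)
  refine ⟨F, ?_⟩
  have h1 : ((∑ j, ∑ l, lam j l : ℚ) : ℝ) = ((∑ l, phi l + F : ℚ) : ℝ) := by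
    push_cast
    simp only [Int.cast_one, one_mul] at hF
    linarith
  exact_mod_cast h1

lemma stable_neg {B : ℕ} (hst : ∀ a : ℤ, IsCoprime a (B : ℤ) →
    StableWeights ℂ (fun j l => (a : ℝ) * lam j l) (fun l => (a : ℝ) * phi l)) {a : ℤ}
    (ha : IsCoprime a (B : ℤ)) : StableWeights ℂ (fun j l => ((-a : ℤ) : ℝ) * lam j l)
      (fun l => ((-a : ℤ) : ℝ) * phi l) := hst (-a) ha.neg_left

/-- The arc inequality for all multipliers. -/
theorem abs_arcs {B : ℕ} (hB : 0 < B) (hst : ∀ a : ℤ, IsCoprime a (B : ℤ) →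
      StableWeights ℂ (fun j l => (a : ℝ) * lam j l) (fun l => (a : ℝ) * phi l)) (hn : 2 ≤ n)
    {ε : Option (Fin m) → ℚ} {s : ℤ} (hε : ∑ x, ε x = s) {D : Option (Fin m) → Fin n → ℚ}
    (hD : ∀ x l, D x l = expo lam phi x l - ε x) : ArcAll D := by
  intro q hq hqD u hu γ hγ hγ1
  obtain ⟨F, hF⟩ := weights_sum hst
  obtain ⟨a, ha, hau⟩ := exists_lift (q := q) (N := q * B) (Nat.mul_pos hq hB)
    (dvd_mul_right _ _) u hu
  have haB : IsCoprime a (B : ℤ) := IsCoprime.of_isCoprime_of_dvd_right ha (by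
    push_cast; exact dvd_mul_left _ _)
  have key := arcs hn hF (hst a haB) (stable_neg hst haB) hε hγ hγ1
  refine key.trans_eq (sum_congr rfl fun x _ => ?_)
  congr 1
  refine filter_congr fun l _ => ?_
  have h1 : Int.fract ((a : ℚ) * (expo lam phi x l - ε x)) = Int.fract ((u : ℚ) * D x l) := by
    obtain ⟨z, hz⟩ := hqD x l
    obtain ⟨c, hc⟩ := hau
    rw [Int.fract_eq_fract]
    refine ⟨c * z, ?_⟩
    have h2 : (a : ℚ) = u + q * c := by
      have : a = u + q * c := by linarith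
      rw [this]
      push_cast
      ring
    rw [hD, h2] at *
    push_cast
    rw [← hz]
    ring
  rw [h1]

/-- **The inequality for arithmetic progressions.** -/
theorem abs_ap {B : ℕ} (hB : 0 < B) (hst : ∀ a : ℤ, IsCoprime a (B : ℤ) →
      StableWeights ℂ (fun j l => (a : ℝ) * lam j l) (fun l => (a : ℝ) * phi l)) (hn : 2 ≤ n)
    {ε : Option (Fin m) → ℚ} {s : ℤ} (hε : ∑ x, ε x = s) {D : Option (Fin m) → Fin n → ℚ}
    (hD : ∀ x l, D x l = expo lam phi x l - ε x) (δ : ℚ) (L : Option (Fin m) → ℕ)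
    (hL : ∑ x, L x = δ.den) : n ≤ outside D δ L := by
  obtain ⟨F, hF⟩ := weights_sum hst
  have hd0 : 0 < δ.den := δ.den_pos
  have hdq : (0 : ℚ) < δ.den := by exact_mod_cast hd0
  have hcop : IsCoprime δ.num (δ.den : ℤ) := by
    rw [Int.isCoprime_iff_nat_coprime]
    simpa using δ.reduced
  obtain ⟨u0, w0, huw⟩ := hcop
  obtain ⟨a, ha, c, hc⟩ := exists_lift (q := δ.den) (N := δ.den * B) (Nat.mul_pos hd0 hB)
    (dvd_mul_right _ _) u0 ⟨δ.num, w0, by linear_combination huw⟩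
  have haB : IsCoprime a (B : ℤ) := IsCoprime.of_isCoprime_of_dvd_right ha (by
    push_cast; exact dvd_mul_left _ _)
  have haδ : (a : ℚ) * δ = 1 / δ.den + ((c * δ.num - w0 : ℤ) : ℚ) := by
    have h1 : (δ.den : ℚ) * δ = δ.num := by
      rw [mul_comm]
      exact Rat.mul_den_eq_num δ
    have h2 : ((a * δ.num : ℤ) : ℚ) = ((1 + δ.den * (c * δ.num - w0) : ℤ) : ℚ) := by
      have h3 : a = u0 + δ.den * c := by linarith
      congr 1
      rw [h3]
      linear_combination huw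
    push_cast at h2
    push_cast
    have h4 : (δ.den : ℚ) ≠ 0 := hdq.ne'
    field_simp
    linear_combination h2 + (a : ℚ) * h1
  have key := arcs hn hF (hst a haB) (stable_neg hst haB) hε (γ := fun x => (L x : ℚ) / δ.den)
    (fun x => by positivity) (by
      rw [← sum_div, div_eq_one_iff_eq hdq.ne']
      exact_mod_cast hL)
  refine key.trans (sum_le_sum fun x _ => card_le_card ?_)
  intro l hl
  rw [mem_filter] at hl ⊢
  refine ⟨mem_univ _, fun j hj hden => absurd hl.2 (not_lt.2 ?_)⟩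
  obtain ⟨k, hk⟩ : ∃ k : ℤ, D x l - j * δ = k := ⟨_, (Rat.coe_int_num_of_den_eq_one hden).symm⟩
  rw [← hD]
  have h2 : Int.fract ((a : ℚ) * D x l) = Int.fract ((j : ℚ) / δ.den) := by
    rw [Int.fract_eq_fract]
    refine ⟨a * k + j * (c * δ.num - w0), ?_⟩
    have h3 : (a : ℚ) * D x l = a * (D x l - j * δ) + j * (a * δ) := by ring
    rw [h3, haδ, hk]
    push_cast
    ring
  rw [h2]
  have h4 : (0 : ℚ) ≤ (j : ℚ) / δ.den := by positivity
  have h5 : (0 : ℤ) ≤ ⌊(j : ℚ) / δ.den⌋ := Int.floor_nonneg.2 h4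
  have h6 : (0 : ℚ) ≤ ((⌊(j : ℚ) / δ.den⌋ : ℤ) : ℚ) := by exact_mod_cast h5
  have h7 := Int.floor_add_fract ((j : ℚ) / δ.den)
  have h8 : (j : ℚ) / δ.den ≤ (L x : ℚ) / δ.den := by
    apply div_le_div_of_nonneg_right _ hdq.le
    exact_mod_cast hj
  linarith

end Pool.Agent.R340.SG
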