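import Pool.Agent.R340.SY.Ineq

set_option autoImplicit false

/-!
The arc inequality: two inequalities for line subbundles, for a multiplier and its negative, added.
-/

open Finset

namespace Pool.Agent.R340.SG

open Pool.Agent.Y227.SS Pool.Agent.R340.SY

lemma fract_add_le {z c : ℚ} (h : Int.fract z ≤ c) : Int.fract z + Int.fract (c - z) ≤ c := by
  have h1 : Int.fract (c - z) = Int.fract (c - Int.fract z) := by
    rw [Int.fract_eq_fract]
    refine ⟨-⌊z⌋, ?_⟩
    have := Int.floor_add_fract z
    push_cast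
    linarith
  rw [h1]
  have h2 : 0 ≤ c - Int.fract z := by linarith
  have h3 : Int.fract (c - Int.fract z) ≤ c - Int.fract z := by
    have h4 : (0 : ℤ) ≤ ⌊c - Int.fract z⌋ := Int.floor_nonneg.2 h2
    have h5 := Int.floor_add_fract (c - Int.fract z)
    have h6 : (0 : ℚ) ≤ ((⌊c - Int.fract z⌋ : ℤ) : ℚ) := by exact_mod_cast h4
    linarith
  linarith

lemma fract_add_le' {z c : ℚ} (hc : 0 ≤ c) :
    Int.fract z + Int.fract (c - z) ≤ c + if c < Int.fract z then 1 else 0 := by
  split_ifs with h
  · have h1 : Int.fract (c - z) = Int.fract (1 + c - Int.fract z) := by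
      rw [Int.fract_eq_fract]
      refine ⟨-⌊z⌋ - 1, ?_⟩
      have := Int.floor_add_fract z
      push_cast
      linarith
    rw [h1]
    have h2 := Int.fract_lt_one z
    have h4 : (0 : ℤ) ≤ ⌊1 + c - Int.fract z⌋ := Int.floor_nonneg.2 (by linarith)
    have h5 := Int.floor_add_fract (1 + c - Int.fract z)
    have h6 : (0 : ℚ) ≤ ((⌊1 + c - Int.fract z⌋ : ℤ) : ℚ) := by exact_mod_cast h4
    linarith
  · have := fract_add_le (z := z) (not_lt.1 h)
    linarith

variable {m n : ℕ} {lam : Fin m → Fin n → ℚ} {phi : Fin n → ℚ}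

/-- **The arc inequality.** -/
theorem arcs (hn : 2 ≤ n) {F s : ℤ} (hF : ∑ j, ∑ l, lam j l = ∑ l, phi l + F) {u : ℤ}
    (hst : StableWeights ℂ (fun j l => (u : ℝ) * lam j l) (fun l => (u : ℝ) * phi l))
    (hst' : StableWeights ℂ (fun j l => ((-u : ℤ) : ℝ) * lam j l)
      (fun l => ((-u : ℤ) : ℝ) * phi l))
    {ε : Option (Fin m) → ℚ} (hε : ∑ x, ε x = s) {γ : Option (Fin m) → ℚ} (hγ : ∀ x, 0 ≤ γ x)
    (hγ1 : ∑ x, γ x = 1) :
    n ≤ ∑ x, (univ.filter fun l => γ x < Int.fract ((u : ℚ) * (expo lam phi x l - ε x))).card := by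
  classical
  have hn0 : (0 : ℚ) < n := by exact_mod_cast (by omega : 0 < n)
  by_cases hu : u = 0
  · exfalso
    have h := fract_ge hn u F s hF ε hε hst
    rw [hu] at h
    simp only [Int.cast_zero, zero_mul, Int.fract_zero, sum_const_zero] at h
    linarith
  have huq : (u : ℚ) ≠ 0 := by exact_mod_cast hu
  have hA := fract_ge hn u F s hF ε hε hst
  set ε' : Option (Fin m) → ℚ := fun x => ε x + (γ x - (if x = none then 1 else 0)) / u with hε'
  have hsum' : ∑ x, ε' x = s := by
    simp only [hε', sum_add_distrib, hε, ← sum_div, sum_sub_distrib, hγ1, sum_ite_eq', mem_univ,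
      if_true]
    simp
  have hB := fract_ge hn (-u) F s hF ε' hsum' hst'
  set z : Option (Fin m) → Fin n → ℚ := fun x l => (u : ℚ) * (expo lam phi x l - ε x) with hz
  have e : ∀ x l, Int.fract ((((-u : ℤ)) : ℚ) * (expo lam phi x l - ε' x)) =
      Int.fract (γ x - z x l) := by
    intro x l
    rw [Int.fract_eq_fract]
    refine ⟨-(if x = none then 1 else 0), ?_⟩
    simp only [hε', hz]
    push_cast
    split_ifs <;> field_simp <;> ring
  simp only [e] at hB
  have hAB := add_le_add hA hB
  rw [← sum_add_distrib] at hAB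
  have b : ∀ x ∈ (univ : Finset (Option (Fin m))), (∑ l, Int.fract (z x l) +
      ∑ l, Int.fract (γ x - z x l)) ≤
        n * γ x + ((univ.filter fun l => γ x < Int.fract (z x l)).card : ℚ) := by
    intro x _
    have h2 := sum_le_sum fun (l : Fin n) (_ : l ∈ univ) => fract_add_le' (z := z x l) (hγ x)
    have h4 : ∑ l : Fin n, (γ x + if γ x < Int.fract (z x l) then 1 else 0) =
        n * γ x + ((univ.filter fun l => γ x < Int.fract (z x l)).card : ℚ) := by
      rw [sum_add_distrib, sum_const, card_univ, Fintype.card_fin, nsmul_eq_mul, card_filter]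
      push_cast
      rfl
    rw [h4, sum_add_distrib] at h2
    exact h2
  have h3 := sum_le_sum b
  have h5 : ∑ x, (n * γ x + ((univ.filter fun l => γ x < Int.fract (z x l)).card : ℚ)) =
      n + ∑ x, ((univ.filter fun l => γ x < Int.fract (z x l)).card : ℚ) := by
    rw [sum_add_distrib, ← mul_sum, hγ1, mul_one]
  rw [h5] at h3
  have h6 : (n : ℚ) ≤ ∑ x, ((univ.filter fun l => γ x < Int.fract (z x l)).card : ℚ) := by
    linarith
  exact_mod_cast h6

end Pool.Agent.R340.SG
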