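import Pool.Agent.R340.SG.Mult

set_option autoImplicit false

/-!
Three points and exponents of prime denominator: the bound for the multiplicities.
-/

open Finset

namespace Pool.Agent.R340.SG

open Pool.Agent.Y227.SS Pool.Agent.W432.PC Pool.Agent.TH571.PCV
open Pool.Agent.R340.MI

universe u

variable {r : ℕ}

lemma exists_third {x y : Fin 3} (hxy : x ≠ y) : ∃ z, y ≠ z ∧ x ≠ z := by
  fin_cases x <;> fin_cases y <;>
    first
      | exact absurd rfl hxy
      | exact ⟨0, by decide, by decide⟩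
      | exact ⟨1, by decide, by decide⟩
      | exact ⟨2, by decide, by decide⟩

/-- The numbers of exponents congruent to two different exponents at one point and to an exponent at
another point have a sum greater than the rank. -/
def LargeMult (lam : Fin 3 → Fin r → ℚ) : Prop :=
  ∃ x y, x ≠ y ∧ ∃ i j k, (lam x i - lam x j).den ≠ 1 ∧
    r < mult lam x i + mult lam x j + mult lam y k

lemma den_eq_of_prime {N : ℕ} (hN : N.Prime) {q : ℚ} (h : ∃ m : ℤ, (N : ℚ) * q = m)
    (h1 : q.den ≠ 1) : q.den = N := by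
  obtain ⟨m, hm⟩ := h
  have hNq : (N : ℚ) ≠ 0 := by exact_mod_cast hN.ne_zero
  have h2 : q = (m : ℚ) / ((N : ℤ) : ℚ) := by
    push_cast
    rw [← hm]
    field_simp
  have h3 := Rat.den_dvd m (N : ℤ)
  rw [Rat.divInt_eq_div, ← h2] at h3
  exact (hN.eq_one_or_self_of_dvd _ (by exact_mod_cast h3)).resolve_left h1

/-- The theorem for systems, prime denominators. -/
theorem sys_prime {R : Type u} [CommRing R] [IsDomain R] [CharZero R] [Algebra.FiniteType ℤ R]
    (hr : 2 ≤ r) (α : Fin 2 → R) (hα : ∀ i j, i ≠ j → IsUnit (α i - α j))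
    (A : Fin 2 → Matrix (Fin r) (Fin r) R) (hirr : AbsIrreducible α A)
    (lam : Fin 3 → Fin r → ℚ) (hlam : ∀ j : Fin 2, HasExponents (A j) (lam j.castSucc))
    (hphi : HasExponents (∑ j, A j) (fun l => -lam 2 l)) {N : ℕ} (hN : N.Prime)
    (hd : ∀ i l l', ∃ m : ℤ, (N : ℚ) * (lam i l - lam i l') = m)
    (hs : ∀ κ : Fin 3 → Fin r, ∃ m : ℤ, (N : ℚ) * ∑ i, lam i (κ i) = m) (h : LargeMult lam)
    (B : ℕ) (hB : 0 < B) (hBlam : ∀ i l, ∃ m : ℤ, (B : ℚ) * lam i l = m) : BadSys α A B := by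
  obtain ⟨x, y, hxy, i, j, k, hij, hm⟩ := h
  obtain ⟨z, hyz, hxz⟩ := exists_third hxy
  refine sys_mult hr α hα A hirr lam hlam hphi hxy hyz hxz i j k hij (fun l => ?_) hm B hB hBlam
  rw [den_eq_of_prime hN (hd x i j) hij]
  obtain ⟨m, hm'⟩ := hs fun w => if w = x then j else if w = y then k else l
  rw [sum_three hxy hyz hxz] at hm'
  simp only [if_true, if_neg hxy.symm, if_neg hxz.symm, if_neg hyz.symm] at hm'
  exact ⟨m, hm'⟩

end Pool.Agent.R340.SG
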