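import Pool.Agent.R340.SG.AP
import Pool.Agent.R340.SY.Final

set_option autoImplicit false

/-!
All the consequences of the inequality for line subbundles.
-/

open Finset

namespace Pool.Agent.R340.SG

open Pool.Agent.Y227.SS Pool.Agent.R340.SY

variable {m n : ℕ} {lam : Fin m → Fin n → ℚ} {phi : Fin n → ℚ}

/-- For all common denominators `q` of the `D x l`: (1) for all `u` prime to `q` the sum of the
fractional parts of all the `u D x l` is at least `n`, and at most the number of the `D x l` which are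
not integers minus `n`; (2) for all families of numbers `γ x ≥ 0` with sum one at least `n` of the
fractional parts of the `u D x l` are greater than `γ x`; (3) if at most `2 n` of the `D x l` are not
integers, and `q` is prime or all prime factors of `q` are greater than `4 n + 1`, then exactly `2 n` of
the `D x l` are not integers and the family of the `D x l` is symmetric modulo the integers. -/
def LineAll (D : Option (Fin m) → Fin n → ℚ) : Prop :=
  ∀ q : ℕ, 0 < q → (∀ x l, ∃ z : ℤ, (q : ℚ) * D x l = z) →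
    (∀ u : ℤ, IsCoprime u (q : ℤ) →
      (n : ℚ) ≤ ∑ x, ∑ l, Int.fract ((u : ℚ) * D x l) ∧
      ∑ x, ∑ l, Int.fract ((u : ℚ) * D x l) ≤
        ((univ.filter fun t : Option (Fin m) × Fin n => (D t.1 t.2).den ≠ 1).card : ℚ) - n ∧
      ∀ γ : Option (Fin m) → ℚ, (∀ x, 0 ≤ γ x) → ∑ x, γ x = 1 →
        n ≤ ∑ x, (univ.filter fun l => γ x < Int.fract ((u : ℚ) * D x l)).card) ∧
    ((univ.filter fun t : Option (Fin m) × Fin n => (D t.1 t.2).den ≠ 1).card ≤ 2 * n →
      (q.Prime ∨ ∀ p : ℕ, p.Prime → p ∣ q → 4 * n + 1 < p) →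
      (univ.filter fun t : Option (Fin m) × Fin n => (D t.1 t.2).den ≠ 1).card = 2 * n ∧
      ∀ t : ℚ, (univ.filter fun s : Option (Fin m) × Fin n => (D s.1 s.2 - t).den = 1).card =
        (univ.filter fun s : Option (Fin m) × Fin n => (D s.1 s.2 + t).den = 1).card)

lemma den_div {q : ℕ} (hq : 0 < q) {z : ℤ} {x : ℚ} (h : (q : ℚ) * x = z) :
    x.den = 1 ↔ (q : ℤ) ∣ z := by
  have hqq : (q : ℚ) ≠ 0 := by exact_mod_cast hq.ne'
  constructor
  · intro h1
    refine ⟨x.num, ?_⟩
    have h2 := Rat.coe_int_num_of_den_eq_one h1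
    have h3 : ((z : ℤ) : ℚ) = ((q * x.num : ℤ) : ℚ) := by
      push_cast
      rw [h2, h]
    exact_mod_cast h3
  · rintro ⟨k, rfl⟩
    have h1 : x = ((k : ℤ) : ℚ) := by
      push_cast at h
      exact mul_left_cancel₀ hqq h
    rw [h1]
    exact Rat.den_intCast k

/-- The inequality for line subbundles and its consequences. -/
theorem abs_line {B : ℕ} (hB : 0 < B) (hst : ∀ a : ℤ, IsCoprime a (B : ℤ) →
      StableWeights ℂ (fun j l => (a : ℝ) * lam j l) (fun l => (a : ℝ) * phi l)) (hn : 2 ≤ n)
    {ε : Option (Fin m) → ℚ} {s : ℤ} (hε : ∑ x, ε x = s) {D : Option (Fin m) → Fin n → ℚ}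
    (hD : ∀ x l, D x l = expo lam phi x l - ε x) : LineAll D := by
  classical
  intro q hq hqD
  have hq' : (0 : ℚ) < q := by exact_mod_cast hq
  obtain ⟨F, hF⟩ := weights_sum hst
  have harc := abs_arcs hB hst hn hε hD q hq hqD
  choose Z hZ using hqD
  have hres : ∀ u : ℤ, IsCoprime u (q : ℤ) → (n : ℤ) * q ≤ ∑ x, ∑ l, (u * Z x l) % q := by
    intro u hu
    obtain ⟨a, ha, hau⟩ := exists_lift (q := q) (N := q * B) (Nat.mul_pos hq hB)
      (dvd_mul_right _ _) u hu
    have haB : IsCoprime a (B : ℤ) := IsCoprime.of_isCoprime_of_dvd_right ha (by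
      push_cast; exact dvd_mul_left _ _)
    have h1 := fract_ge hn a F s hF ε hε (hst a haB)
    have h2 : ∀ x l, Int.fract ((a : ℚ) * (expo lam phi x l - ε x)) =
        (((u * Z x l) % q : ℤ) : ℚ) / q := by
      intro x l
      rw [← hD, fract_eq hq (z := a * Z x l) (by
        rw [← mul_assoc, mul_comm (q : ℚ), mul_assoc, hZ]; push_cast; rfl)]
      congr 2
      refine Pool.Agent.R340.P3.emod_congr ?_
      rw [← sub_mul]
      exact hau.mul_right _
    simp only [h2, ← sum_div] at h1
    rw [le_div_iff₀ hq'] at h1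
    exact_mod_cast h1
  have hM : (univ.filter fun t : Option (Fin m) × Fin n => ¬ (q : ℤ) ∣ Z t.1 t.2) =
      univ.filter fun t : Option (Fin m) × Fin n => (D t.1 t.2).den ≠ 1 := by
    ext t
    simp only [mem_filter, mem_univ, true_and]
    exact (not_congr (den_div hq (hZ t.1 t.2))).symm
  refine ⟨fun u hu => ?_, fun hM2 hqq => ?_⟩
  · have h2 : ∀ x l, Int.fract ((u : ℚ) * D x l) = (((u * Z x l) % q : ℤ) : ℚ) / q := by
      intro x l
      exact fract_eq hq (z := u * Z x l) (by
        rw [← mul_assoc, mul_comm (q : ℚ), mul_assoc, hZ]; push_cast; rfl)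
    have h1 := hres u hu
    have h3 := hres (-u) hu.neg_left
    have h4 := residues_add hq Z u hu
    rw [hM] at h4
    refine ⟨?_, ?_, harc u hu⟩
    · simp only [h2, ← Finset.sum_div]
      rw [le_div_iff₀ hq']
      exact_mod_cast h1
    · simp only [h2, ← Finset.sum_div]
      rw [div_le_iff₀ hq']
      have h5 : ∑ x, ∑ l, (u * Z x l) % (q : ℤ) ≤
          ((univ.filter fun t : Option (Fin m) × Fin n => (D t.1 t.2).den ≠ 1).card - n) * q := by
        linarith
      exact_mod_cast h5
  · refine ⟨?_, fun t => ?_⟩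
    · have h1 := hres 1 isCoprime_one_left
      have h3 := hres (-1) isCoprime_one_left.neg_left
      have h4 := residues_add hq Z 1 isCoprime_one_left
      rw [hM] at h4
      have hqz : (0 : ℤ) < q := by exact_mod_cast hq
      have h5 : (q : ℤ) * (2 * n) ≤
          q * (univ.filter fun t : Option (Fin m) × Fin n => (D t.1 t.2).den ≠ 1).card := by
        linarith
      have h6 := le_of_mul_le_mul_left h5 hqz
      have h7 : 2 * n ≤ (univ.filter fun t : Option (Fin m) × Fin n => (D t.1 t.2).den ≠ 1).card := by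
        exact_mod_cast h6
      exact le_antisymm hM2 h7
    · by_cases ht : ∃ w : ℤ, (q : ℚ) * t = w
      · obtain ⟨w, hw⟩ := ht
        have key := symmetric_of_residues hq Z hres (by rw [hM]; exact hM2) hqq w
        have e1 : (univ.filter fun s : Option (Fin m) × Fin n => (D s.1 s.2 - t).den = 1) =
            univ.filter fun s : Option (Fin m) × Fin n => (q : ℤ) ∣ Z s.1 s.2 - w := by
          ext s
          simp only [mem_filter, mem_univ, true_and]
          rw [den_div hq (z := Z s.1 s.2 - w) (by rw [mul_sub, hZ, hw]; push_cast; rfl)]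
        have e2 : (univ.filter fun s : Option (Fin m) × Fin n => (D s.1 s.2 + t).den = 1) =
            univ.filter fun s : Option (Fin m) × Fin n => (q : ℤ) ∣ Z s.1 s.2 + w := by
          ext s
          simp only [mem_filter, mem_univ, true_and]
          rw [den_div hq (z := Z s.1 s.2 + w) (by rw [mul_add, hZ, hw]; push_cast; rfl)]
        rw [e1, e2]
        exact key
      · have e1 : (univ.filter fun s : Option (Fin m) × Fin n => (D s.1 s.2 - t).den = 1) = ∅ := by
          rw [filter_eq_empty_iff]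
          intro s _ h
          apply ht
          have h1 := Rat.coe_int_num_of_den_eq_one h
          refine ⟨Z s.1 s.2 - q * (D s.1 s.2 - t).num, ?_⟩
          push_cast
          rw [h1, ← hZ]
          ring
        have e2 : (univ.filter fun s : Option (Fin m) × Fin n => (D s.1 s.2 + t).den = 1) = ∅ := by
          rw [filter_eq_empty_iff]
          intro s _ h
          apply ht
          have h1 := Rat.coe_int_num_of_den_eq_one h
          refine ⟨q * (D s.1 s.2 + t).num - Z s.1 s.2, ?_⟩
          push_cast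
          rw [h1, ← hZ]
          ring
        rw [e1, e2]

/-- Multiples of `δ`. -/
lemma exists_multiple (δ : ℚ) {x : ℚ} (h : ∃ z : ℤ, (δ.den : ℚ) * x = z) :
    ∃ j : ℕ, j ≤ δ.den - 1 ∧ (x - j * δ).den = 1 := by
  obtain ⟨w, hw⟩ := h
  have hd0 : 0 < δ.den := δ.den_pos
  have hdz : (0 : ℤ) < δ.den := by exact_mod_cast hd0
  have hcop : IsCoprime δ.num (δ.den : ℤ) := by
    rw [Int.isCoprime_iff_nat_coprime]
    simpa using δ.reduced
  obtain ⟨u0, w0, huw⟩ := hcop
  have h1 := Int.emod_nonneg (w * u0) hdz.ne'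
  have h2 := Int.emod_lt_of_pos (w * u0) hdz
  refine ⟨((w * u0) % δ.den).toNat, by omega, ?_⟩
  have h3 : (((((w * u0) % δ.den).toNat : ℕ) : ℤ) : ℚ) = (((w * u0) % δ.den : ℤ) : ℚ) := by
    rw [Int.toNat_of_nonneg h1]
  have h4 : (δ.den : ℚ) * δ = δ.num := by
    rw [mul_comm]
    exact Rat.mul_den_eq_num δ
  rw [den_div hd0 (z := w - ((w * u0) % δ.den) * δ.num) (by
    push_cast at h3 ⊢
    rw [mul_sub, hw, h3, mul_left_comm, h4])]
  have h5 := Int.mul_ediv_add_emod (w * u0) δ.den
  refine ⟨w * w0 + (w * u0) / δ.den * δ.num, ?_⟩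
  have h6 : (w * u0) % (δ.den : ℤ) = w * u0 - δ.den * (w * u0 / δ.den) := by linarith
  rw [h6]
  linear_combination -w * huw

/-- Two exponents at a point `x₀`, all the exponents at `z` having the denominator of their difference. -/
theorem outside_le {D : Option (Fin m) → Fin n → ℚ} {x₀ z : Option (Fin m)} (hxz : x₀ ≠ z) (δ : ℚ)
    (hz : ∀ l, ∃ w : ℤ, (δ.den : ℚ) * D z l = w) :
    ∃ L : Option (Fin m) → ℕ, ∑ x, L x = δ.den ∧ outside D δ L ≤
      (univ.filter fun l => (D x₀ l).den ≠ 1 ∧ (D x₀ l - δ).den ≠ 1).card +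
      ∑ x ∈ (univ.erase x₀).erase z, (univ.filter fun l => (D x l).den ≠ 1).card := by
  classical
  have hd0 : 0 < δ.den := δ.den_pos
  have hsplit : ∀ f : Option (Fin m) → ℕ, ∑ x, f x =
      f x₀ + (f z + ∑ x ∈ (univ.erase x₀).erase z, f x) := by
    intro f
    rw [← add_sum_erase univ f (mem_univ x₀),
      ← add_sum_erase (univ.erase x₀) f (mem_erase.2 ⟨hxz.symm, mem_univ z⟩)]
  obtain ⟨L, hL0, hLz, hL⟩ : ∃ L : Option (Fin m) → ℕ, L x₀ = 1 ∧ L z = δ.den - 1 ∧
      ∀ x ∈ (univ.erase x₀).erase z, L x = 0 :=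
    ⟨fun x => if x = x₀ then 1 else if x = z then δ.den - 1 else 0, if_pos rfl,
      by
        show (if z = x₀ then 1 else if z = z then δ.den - 1 else 0) = _
        rw [if_neg hxz.symm, if_pos rfl], fun x hx => by
        show (if x = x₀ then 1 else if x = z then δ.den - 1 else 0) = _
        rw [if_neg (ne_of_mem_erase (mem_of_mem_erase hx)), if_neg (ne_of_mem_erase hx)]⟩
  refine ⟨L, ?_, ?_⟩
  · rw [hsplit, hL0, hLz, sum_eq_zero hL]
    omega
  · unfold outside
    rw [hsplit]
    have h1 : (univ.filter fun l => ∀ j : ℕ, j ≤ L z → (D z l - j * δ).den ≠ 1).card = 0 := by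
      rw [card_eq_zero, filter_eq_empty_iff]
      intro l _ h
      obtain ⟨j, hj, hj2⟩ := exists_multiple δ (hz l)
      exact h j (hLz ▸ hj) hj2
    rw [h1, zero_add]
    refine add_le_add (card_le_card ?_) (sum_le_sum fun x hx => card_le_card ?_)
    · intro l hl
      rw [mem_filter] at hl ⊢
      refine ⟨mem_univ _, ?_, ?_⟩
      · have := hl.2 0 (by omega)
        simpa using this
      · have := hl.2 1 (by omega)
        simpa using this
    · intro l hl
      rw [mem_filter] at hl ⊢
      refine ⟨mem_univ _, ?_⟩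
      have := hl.2 0 (by omega)
      simpa using this

end Pool.Agent.R340.SG
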