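import Pool.Agent.R340.SG.Three

set_option autoImplicit false

/-!
Three points: two different exponents at one point and an exponent at another point have total
multiplicity at most the rank.
-/

open Finset

namespace Pool.Agent.R340.SG

open Pool.Agent.Y227.SS Pool.Agent.W432.PC Pool.Agent.TH571.PCV
open Pool.Agent.R340.MI
open Pool.Agent.R340.SY (exists_lift)
open Pool.Agent.R340.P3 (emod_congr)

universe u

variable {r : ℕ}

lemma sum_three {x y z : Fin 3} (hxy : x ≠ y) (hyz : y ≠ z) (hxz : x ≠ z) {M : Type*}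
    [AddCommMonoid M] (f : Fin 3 → M) : ∑ w, f w = f x + f y + f z := by
  have hun : (univ : Finset (Fin 3)) = {x, y, z} := by
    symm
    rw [← card_eq_iff_eq_univ, Fintype.card_fin, card_eq_three]
    exact ⟨x, y, z, hxy, hxz, hyz, rfl⟩
  rw [hun, sum_insert (by simp [hxy, hxz]), sum_insert (by simpa using hyz), sum_singleton,
    add_assoc]

lemma den_iff' {B : ℕ} (hB : 0 < B) {E E' : ℤ} {a b : ℚ} (ha : a = (E : ℚ) / B)
    (hb : b = (E' : ℚ) / B) : (a - b).den = 1 ↔ (B : ℤ) ∣ E - E' := by
  have h : a - b = ((E - E' : ℤ) : ℚ) / B := by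
    rw [ha, hb]
    push_cast
    ring
  rw [h, den_iff hB]

/-- **The bound for the multiplicities**, for exponents with common denominator `B`. -/
theorem good_mult {B : ℕ} (hB : 0 < B) (hr : 2 ≤ r) {E : Fin 3 → Fin r → ℤ} (h : Good B E)
    {lam : Fin 3 → Fin r → ℚ} (hE : ∀ i l, lam i l = (E i l : ℚ) / B)
    {x y z : Fin 3} (hxy : x ≠ y) (hyz : y ≠ z) (hxz : x ≠ z) (i j k : Fin r)
    (hij : (lam x i - lam x j).den ≠ 1)
    (hs : ∀ l, ∃ m : ℤ, ((lam x i - lam x j).den : ℚ) * (lam x j + lam y k + lam z l) = m) :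
    mult lam x i + mult lam x j + mult lam y k ≤ r := by
  classical
  have hBq : (B : ℚ) ≠ 0 := by exact_mod_cast hB.ne'
  have hBz : (0 : ℤ) < B := by exact_mod_cast hB
  set δ : ℚ := lam x i - lam x j with hδ
  set d : ℕ := δ.den with hd
  have hd0 : 0 < d := δ.den_pos
  have hδE : δ = ((E x i - E x j : ℤ) : ℚ) / B := by
    rw [hδ, hE, hE]
    push_cast
    ring
  -- the denominator of `δ` divides `B`
  obtain ⟨e, he⟩ : d ∣ B := by
    have h1 : δ = (E x i - E x j : ℤ) / ((B : ℤ) : ℚ) := by
      rw [hδE]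
      push_cast
      rfl
    have h2 := Rat.den_dvd (E x i - E x j) (B : ℤ)
    rw [Rat.divInt_eq_div, ← h1] at h2
    exact_mod_cast h2
  have he0 : 0 < e := by
    rcases Nat.eq_zero_or_pos e with h1 | h1
    · rw [h1, mul_zero] at he
      omega
    · exact h1
  have hezz : (0 : ℤ) < e := by exact_mod_cast he0
  have hBde : (B : ℤ) = d * e := by exact_mod_cast he
  have hnum : E x i - E x j = e * δ.num := by
    have h1 : ((E x i - E x j : ℤ) : ℚ) = B * δ := by
      rw [hδE]
      field_simp
    have h2 : (d : ℚ) * δ = δ.num := by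
      rw [hd, mul_comm]
      exact Rat.mul_den_eq_num δ
    have h3 : ((E x i - E x j : ℤ) : ℚ) = ((e * δ.num : ℤ) : ℚ) := by
      rw [h1, he]
      push_cast
      rw [mul_assoc, mul_left_comm, h2]
    exact_mod_cast h3
  -- the multiplier
  have hcop : IsCoprime δ.num (d : ℤ) := by
    rw [Int.isCoprime_iff_nat_coprime]
    simpa using δ.reduced
  obtain ⟨u0, w0, huw⟩ := hcop
  obtain ⟨a, haB, had⟩ := exists_lift (q := d) (N := B) hB ⟨e, he⟩ u0
    ⟨δ.num, w0, by linear_combination huw⟩
  have haδ : (B : ℤ) ∣ a * (E x i - E x j) - e := by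
    rw [hnum, hBde]
    obtain ⟨c, hc⟩ := had
    refine ⟨c * δ.num - w0, ?_⟩
    have h1 : a = u0 + d * c := by linarith
    rw [h1]
    linear_combination (e : ℤ) * huw
  -- the arcs
  let β : Fin 3 → ℤ := fun w => if w = x then E x j else if w = y then E y k else
    -(E x j + E y k)
  let γ : Fin 3 → ℤ := fun w => if w = x then (e : ℤ) else if w = y then 0 else B - e
  have bx : β x = E x j := by simp [β]
  have by' : β y = E y k := by simp [β, hxy.symm]
  have bz : β z = -(E x j + E y k) := by simp [β, hxz.symm, hyz.symm]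
  have gx : γ x = e := by simp [γ]
  have gy : γ y = 0 := by simp [γ, hxy.symm]
  have gz : γ z = B - e := by simp [γ, hxz.symm, hyz.symm]
  have hd1 : (1 : ℤ) ≤ d := by exact_mod_cast hd0
  have heB : (e : ℤ) ≤ B := by
    rw [hBde]
    nlinarith
  have key := good_arcs hB hr h (β := β) (by
      rw [sum_three hxy hyz hxz, bx, by', bz]
      exact ⟨0, by ring⟩) haB (γ := γ) (by
      intro w
      simp only [γ]
      split_ifs <;> omega) (by
      rw [sum_three hxy hyz hxz, gx, gy, gz]
      ring)
  rw [sum_three hxy hyz hxz] at key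
  have hcompl : ∀ (P : Fin r → Prop) [DecidablePred P] (Q : Finset (Fin r)),
      (∀ l ∈ Q, ¬ P l) → (univ.filter P).card + Q.card ≤ r := by
    intro P _ Q hQ
    have h1 : Disjoint (univ.filter P) Q := by
      rw [disjoint_left]
      intro l hl hl2
      exact hQ l hl2 (mem_filter.1 hl).2
    have h2 := card_le_univ ((univ.filter P) ∪ Q)
    rwa [card_union_of_disjoint h1, Fintype.card_fin] at h2
  have cx : (univ.filter fun l => γ x < (a * (E x l - β x)) % (B : ℤ)).card +
      (mult lam x i + mult lam x j) ≤ r := by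
    have hdis : Disjoint (univ.filter fun l => (lam x i - lam x l).den = 1)
        (univ.filter fun l => (lam x j - lam x l).den = 1) := by
      rw [disjoint_left]
      intro l h1 h2
      have h3 := (den_iff' hB (hE x i) (hE x l)).1 (mem_filter.1 h1).2
      have h4 := (den_iff' hB (hE x j) (hE x l)).1 (mem_filter.1 h2).2
      apply hij
      rw [hd, hδ, den_iff' hB (hE x i) (hE x j)]
      have h5 := dvd_sub h3 h4
      have h6 : E x i - E x l - (E x j - E x l) = E x i - E x j := by ring
      rwa [h6] at h5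
    have h1 := hcompl (fun l => γ x < (a * (E x l - β x)) % (B : ℤ))
      ((univ.filter fun l => (lam x i - lam x l).den = 1) ∪
        (univ.filter fun l => (lam x j - lam x l).den = 1)) (by
      intro l hl hlt
      rw [gx, bx] at hlt
      rcases mem_union.1 hl with hl | hl
      · have h3 := (den_iff' hB (hE x i) (hE x l)).1 (mem_filter.1 hl).2
        have h4 : (a * (E x l - E x j)) % (B : ℤ) = e % B := by
          refine emod_congr ?_
          have h5 := dvd_sub haδ (h3.mul_left a)
          have h6 : a * (E x i - E x j) - e - a * (E x i - E x l) = a * (E x l - E x j) - e := by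
            ring
          rwa [h6] at h5
        have h7 : (e : ℤ) % B ≤ e := emod_le_self hezz.le
        omega
      · have h3 := (den_iff' hB (hE x j) (hE x l)).1 (mem_filter.1 hl).2
        have h4 : (a * (E x l - E x j)) % (B : ℤ) = 0 := by
          refine Int.emod_eq_zero_of_dvd ?_
          have h5 := dvd_neg.2 (h3.mul_left a)
          have h6 : -(a * (E x j - E x l)) = a * (E x l - E x j) := by ring
          rwa [h6] at h5
        omega)
    rw [card_union_of_disjoint hdis] at h1
    exact h1
  have cy : (univ.filter fun l => γ y < (a * (E y l - β y)) % (B : ℤ)).card +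
      mult lam y k ≤ r := by
    refine hcompl (fun l => γ y < (a * (E y l - β y)) % (B : ℤ))
      (univ.filter fun l => (lam y k - lam y l).den = 1) ?_
    intro l hl hlt
    rw [gy, by'] at hlt
    have h3 := (den_iff' hB (hE y k) (hE y l)).1 (mem_filter.1 hl).2
    have h4 : (a * (E y l - E y k)) % (B : ℤ) = 0 := by
      refine Int.emod_eq_zero_of_dvd ?_
      have h5 := dvd_neg.2 (h3.mul_left a)
      have h6 : -(a * (E y k - E y l)) = a * (E y l - E y k) := by ring
      rwa [h6] at h5
    omega
  have cz : (univ.filter fun l => γ z < (a * (E z l - β z)) % (B : ℤ)).card = 0 := by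
    rw [card_eq_zero, filter_eq_empty_iff]
    intro l _ hlt
    rw [gz, bz] at hlt
    obtain ⟨s, hs'⟩ := hs l
    have h1 : E z l - -(E x j + E y k) = e * s := by
      have h2 : ((E z l - -(E x j + E y k) : ℤ) : ℚ) = B * (lam x j + lam y k + lam z l) := by
        rw [hE, hE, hE]
        push_cast
        field_simp
        ring
      have h3 : ((E z l - -(E x j + E y k) : ℤ) : ℚ) = ((e * s : ℤ) : ℚ) := by
        rw [h2, he]
        push_cast
        rw [← hs']
        ring
      exact_mod_cast h3
    have h5 : (a * (E z l - -(E x j + E y k))) % (B : ℤ) = e * ((a * s) % d) := by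
      rw [h1, hBde, mul_comm (d : ℤ) e, mul_left_comm, Int.mul_emod_mul_of_pos _ _ hezz]
    have h6 := Int.emod_lt_of_pos (a * s) (by omega : (0 : ℤ) < d)
    rw [h5, hBde] at hlt
    nlinarith
  omega

/-- The theorem for systems. -/
theorem sys_mult {R : Type u} [CommRing R] [IsDomain R] [CharZero R] [Algebra.FiniteType ℤ R]
    (hr : 2 ≤ r) (α : Fin 2 → R) (hα : ∀ i j, i ≠ j → IsUnit (α i - α j))
    (A : Fin 2 → Matrix (Fin r) (Fin r) R) (hirr : AbsIrreducible α A)
    (lam : Fin 3 → Fin r → ℚ) (hlam : ∀ j : Fin 2, HasExponents (A j) (lam j.castSucc))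
    (hphi : HasExponents (∑ j, A j) (fun l => -lam 2 l)) {x y z : Fin 3}
    (hxy : x ≠ y) (hyz : y ≠ z) (hxz : x ≠ z) (i j k : Fin r)
    (hij : (lam x i - lam x j).den ≠ 1)
    (hs : ∀ l, ∃ m : ℤ, ((lam x i - lam x j).den : ℚ) * (lam x j + lam y k + lam z l) = m)
    (hm : r < mult lam x i + mult lam x j + mult lam y k) (N : ℕ)
    (hN : 0 < N) (hNlam : ∀ i l, ∃ m : ℤ, (N : ℚ) * lam i l = m) : BadSys α A N := by
  have hNq : (N : ℚ) ≠ 0 := by exact_mod_cast hN.ne'
  choose E hE using hNlam
  have hE' : ∀ i l, lam i l = (E i l : ℚ) / N := by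
    intro i l
    rw [← hE]
    field_simp
  by_contra hbad
  refine absurd (good_mult hN hr (good_of_not_bad α hα A hirr hN E (fun j => ?_) ?_ hbad) hE' hxy
    hyz hxz i j k hij hs) (not_le.2 hm)
  · have h1 : (fun l => (E j.castSucc l : ℚ) / N) = lam j.castSucc := funext fun l => (hE' _ l).symm
    rw [h1]
    exact hlam j
  · have h1 : (fun l => -((E 2 l : ℚ) / N)) = fun l => -lam 2 l := funext fun l => by rw [hE']
    rw [h1]
    exact hphi

end Pool.Agent.R340.SG
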