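import Pool.Agent.R340.SG.Line
import Pool.Agent.R340.SG.Final3
import Pool.Agent.R340.MI.Op

set_option autoImplicit false

/-!
The inequalities for line subbundles for irreducible operators.
-/

open Finset

namespace Pool.Agent.R340.SG

open Polynomial Pool.Agent.W432.WB Pool.Agent.W432.HK Pool.Agent.Y227.SS Pool.Agent.Y227.SO
open Pool.Agent.R340.SY Pool.Agent.R340.MI

variable {m n N : ℕ} {b : Fin (n + 1) → ℤ[X]} {α : Fin m → AlgebraicClosure ℚ}
  {lam : Fin m → Fin n → ℚ} {phi : Fin n → ℚ}

lemma op_stable (hm : 1 ≤ m) (hn : 2 ≤ n) (hF : FuchsianWith b α lam phi) (hirr : ¬ Reducible b)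
    (hN : CommonDen lam phi N) (hbad : ¬ BadClass b N) (a : ℤ) (ha : IsCoprime a (N : ℤ)) :
    StableWeights ℂ (fun j l => (a : ℝ) * lam j l) (fun l => (a : ℝ) * phi l) := by
  by_contra hst
  exact hbad ⟨a, ha, bad_class (by omega) (by omega) hF hN a (Or.inr ⟨hirr, hst⟩)⟩

theorem op_line (hm : 1 ≤ m) (hn : 2 ≤ n) (hF : FuchsianWith b α lam phi) (hirr : ¬ Reducible b)
    (hN : CommonDen lam phi N) (hbad : ¬ BadClass b N) {ε : Option (Fin m) → ℚ} {s : ℤ}
    (hε : ∑ x, ε x = s) {D : Option (Fin m) → Fin n → ℚ}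
    (hD : ∀ x l, D x l = expo lam phi x l - ε x) : LineAll D :=
  abs_line hN.1 (op_stable hm hn hF hirr hN hbad) hn hε hD

theorem op_ap (hm : 1 ≤ m) (hn : 2 ≤ n) (hF : FuchsianWith b α lam phi) (hirr : ¬ Reducible b)
    (hN : CommonDen lam phi N) {ε : Option (Fin m) → ℚ} {s : ℤ}
    (hε : ∑ x, ε x = s) {D : Option (Fin m) → Fin n → ℚ}
    (hD : ∀ x l, D x l = expo lam phi x l - ε x) (δ : ℚ) (L : Option (Fin m) → ℕ)
    (hL : ∑ x, L x = δ.den) (hlt : outside D δ L < n) : BadClass b N := by
  by_contra hbad
  exact absurd (abs_ap hN.1 (op_stable hm hn hF hirr hN hbad) hn hε hD δ L hL) (not_le.2 hlt)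

/-- Three points with nonintegral exponents. -/
theorem op_mult (hm : 1 ≤ m) (hn : 2 ≤ n) (hF : FuchsianWith b α lam phi) (hirr : ¬ Reducible b)
    (hN : CommonDen lam phi N) {P : Fin 3 → Option (Fin m)} (hP : Function.Injective P)
    (hint : ∀ x, x ∉ Set.range P → ∀ l, (expo lam phi x l).den = 1) {p : ℕ} (hp : p.Prime)
    (hd : ∀ i l l', ∃ w : ℤ, (p : ℚ) * (expo lam phi (P i) l - expo lam phi (P i) l') = w)
    (hs : ∀ κ : Fin 3 → Fin n, ∃ w : ℤ, (p : ℚ) * ∑ i, expo lam phi (P i) (κ i) = w)
    (h : LargeMult fun i => expo lam phi (P i)) : BadClass b N := by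
  classical
  obtain ⟨x, y, hxy, i, j, k, hij, hlt⟩ := h
  obtain ⟨z, hyz, hxz⟩ := exists_third hxy
  set e : Fin 3 → Fin n → ℚ := fun i => expo lam phi (P i) with he
  set δ : ℚ := e x i - e x j with hδ
  have hden : δ.den = p := den_eq_of_prime hp (hd x i j) hij
  have hPxy : P x ≠ P y := fun h => hxy (hP h)
  have hPyz : P y ≠ P z := fun h => hyz (hP h)
  have hPxz : P x ≠ P z := fun h => hxz (hP h)
  obtain ⟨ε, ex, ey, ez, e0⟩ : ∃ ε : Option (Fin m) → ℚ, ε (P x) = e x j ∧ ε (P y) = e y k ∧
      ε (P z) = -(e x j + e y k) ∧ ∀ w, w ∉ Set.range P → ε w = 0 := by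
    refine ⟨fun w => if w = P x then e x j else if w = P y then e y k else
      if w = P z then -(e x j + e y k) else 0, ?_, ?_, ?_, fun w hw => ?_⟩
    · show (if P x = P x then _ else _) = _
      rw [if_pos rfl]
    · show (if P y = P x then _ else if P y = P y then _ else _) = _
      rw [if_neg hPxy.symm, if_pos rfl]
    · show (if P z = P x then _ else if P z = P y then _ else if P z = P z then _ else _) = _
      rw [if_neg hPxz.symm, if_neg hPyz.symm, if_pos rfl]
    · show (if w = P x then _ else if w = P y then _ else if w = P z then _ else _) = _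
      rw [if_neg (fun h => hw ⟨x, h.symm⟩), if_neg (fun h => hw ⟨y, h.symm⟩),
        if_neg (fun h => hw ⟨z, h.symm⟩)]
  have hrange : ∀ w, w ∈ Set.range P → w = P x ∨ w = P y ∨ w = P z := by
    rintro w ⟨v, rfl⟩
    have hv : v = x ∨ v = y ∨ v = z := by
      by_contra hcon
      push Not at hcon
      have h4 : ({v, x, y, z} : Finset (Fin 3)).card = 4 := by
        rw [card_insert_of_notMem (by simp [hcon.1, hcon.2.1, hcon.2.2]),
          card_insert_of_notMem (by simp [hxy, hxz]), card_insert_of_notMem (by simpa using hyz),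
          card_singleton]
      have h5 := card_le_univ ({v, x, y, z} : Finset (Fin 3))
      rw [h4, Fintype.card_fin] at h5
      omega
    rcases hv with rfl | rfl | rfl <;> simp
  have hsplit : ∀ {M : Type} [AddCommMonoid M] (f : Option (Fin m) → M),
      (∀ w, w ∉ Set.range P → f w = 0) → ∑ w, f w = f (P x) + f (P y) + f (P z) := by
    intro M _ f hf
    have h1 : ∑ w, f w = ∑ w ∈ ({P x, P y, P z} : Finset (Option (Fin m))), f w := by
      symm
      refine sum_subset (subset_univ _) fun w _ hw => hf w fun hr => hw ?_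
      rcases hrange w hr with h | h | h <;> simp [h]
    rw [h1, sum_insert (by simp [hPxy, hPxz]), sum_insert (by simpa using hPyz), sum_singleton,
      add_assoc]
  have hε : ∑ w, ε w = ((0 : ℤ) : ℚ) := by
    rw [hsplit ε e0, ex, ey, ez]
    push_cast
    ring
  set D : Option (Fin m) → Fin n → ℚ := fun w l => expo lam phi w l - ε w with hD
  have hz : ∀ l, ∃ w : ℤ, (δ.den : ℚ) * D (P z) l = w := by
    intro l
    rw [hden]
    obtain ⟨w, hw⟩ := hs fun v => if v = x then j else if v = y then k else l
    refine ⟨w, ?_⟩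
    rw [← hw, sum_three hxy hyz hxz]
    simp only [if_true, if_neg hxy.symm, if_neg hxz.symm, if_neg hyz.symm]
    simp only [hD, ez, he]
    ring
  obtain ⟨L, hL, hle⟩ := outside_le (D := D) hPxz δ hz
  refine op_ap hm hn hF hirr hN hε (fun _ _ => rfl) δ L hL (lt_of_le_of_lt hle ?_)
  have hcompl : ∀ (A : Fin n → Prop) [DecidablePred A] (Q : Finset (Fin n)),
      (∀ l ∈ Q, ¬ A l) → (univ.filter A).card + Q.card ≤ n := by
    intro A _ Q hQ
    have h1 : Disjoint (univ.filter A) Q := by
      rw [disjoint_left]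
      intro l hl hl2
      exact hQ l hl2 (mem_filter.1 hl).2
    have h2 := card_le_univ ((univ.filter A) ∪ Q)
    rwa [card_union_of_disjoint h1, Fintype.card_fin] at h2
  have hneg : ∀ {a c : ℚ}, (a - c).den = 1 → (c - a).den = 1 := by
    intro a c h
    rw [← neg_sub, Rat.den_neg_eq_den]
    exact h
  have cx : (univ.filter fun l => (D (P x) l).den ≠ 1 ∧ (D (P x) l - δ).den ≠ 1).card +
      (mult e x i + mult e x j) ≤ n := by
    have hdis : Disjoint (univ.filter fun l => (e x i - e x l).den = 1)
        (univ.filter fun l => (e x j - e x l).den = 1) := by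
      rw [disjoint_left]
      intro l h1 h2
      apply hij
      have h3 := Rat.coe_int_num_of_den_eq_one (mem_filter.1 h1).2
      have h4 := Rat.coe_int_num_of_den_eq_one (mem_filter.1 h2).2
      have h5 : e x i - e x j = (((e x i - e x l).num - (e x j - e x l).num : ℤ) : ℚ) := by
        push_cast
        rw [h3, h4]
        ring
      rw [hδ, h5]
      exact Rat.den_intCast _
    have h1 := hcompl (fun l => (D (P x) l).den ≠ 1 ∧ (D (P x) l - δ).den ≠ 1)
      ((univ.filter fun l => (e x i - e x l).den = 1) ∪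
        (univ.filter fun l => (e x j - e x l).den = 1)) (by
      rintro l hl ⟨h2, h3⟩
      rcases mem_union.1 hl with hl | hl
      · apply h3
        have h4 : D (P x) l - δ = e x l - e x i := by
          simp only [hD, ex, hδ, he]
          ring
        rw [h4]
        exact hneg (mem_filter.1 hl).2
      · apply h2
        have h4 : D (P x) l = e x l - e x j := by
          simp only [hD, ex, he]
        rw [h4]
        exact hneg (mem_filter.1 hl).2)
    rw [card_union_of_disjoint hdis] at h1
    exact h1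
  have cy : ∑ w ∈ (univ.erase (P x)).erase (P z), (univ.filter fun l => (D w l).den ≠ 1).card +
      mult e y k ≤ n := by
    have h1 : ∑ w ∈ (univ.erase (P x)).erase (P z), (univ.filter fun l => (D w l).den ≠ 1).card =
        (univ.filter fun l => (D (P y) l).den ≠ 1).card := by
      refine sum_eq_single_of_mem (P y) (mem_erase.2 ⟨hPyz, mem_erase.2 ⟨hPxy.symm, mem_univ _⟩⟩)
        fun w hw hwy => ?_
      have hwz : w ≠ P z := ne_of_mem_erase hw
      have hwx : w ≠ P x := ne_of_mem_erase (mem_of_mem_erase hw)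
      have hwr : w ∉ Set.range P := fun hr => by
        rcases hrange w hr with h | h | h
        · exact hwx h
        · exact hwy h
        · exact hwz h
      rw [card_eq_zero, filter_eq_empty_iff]
      intro l _ h2
      apply h2
      simp only [hD, e0 w hwr, sub_zero]
      exact hint w hwr l
    rw [h1]
    refine hcompl (fun l => (D (P y) l).den ≠ 1)
      (univ.filter fun l => (e y k - e y l).den = 1) ?_
    intro l hl h2
    apply h2
    have h4 : D (P y) l = e y l - e y k := by
      simp only [hD, ey, he]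
    rw [h4]
    exact hneg (mem_filter.1 hl).2
  omega

end Pool.Agent.R340.SG
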