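import Pool.Agent.R340.SG.AP
import Pool.Agent.R340.SG.Final3

set_option autoImplicit false

/-!
Three points: the inequality for arithmetic progressions, for systems.
-/

open Finset

namespace Pool.Agent.R340.SG

open Pool.Agent.Y227.SS Pool.Agent.W432.PC Pool.Agent.TH571.PCV
open Pool.Agent.R340.MI
open Pool.Agent.R340.SY (expo)

universe u

variable {r : ℕ}

/-- The number of the exponents `lam i l` such that `lam i l - ε i` is not congruent modulo the integers
to one of the numbers `0, δ, 2 δ, …, L i δ`. -/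
def outsideThree (lam : Fin 3 → Fin r → ℚ) (ε : Fin 3 → ℚ) (δ : ℚ) (L : Fin 3 → ℕ) : ℕ :=
  ∑ i, (univ.filter fun l => ∀ j : ℕ, j ≤ L i → (lam i l - ε i - j * δ).den ≠ 1).card

theorem good_ap {B : ℕ} (hB : 0 < B) (hr : 2 ≤ r) {E : Fin 3 → Fin r → ℤ} (h : Good B E)
    {lam : Fin 3 → Fin r → ℚ} (hE : ∀ i l, lam i l = (E i l : ℚ) / B) {ε : Fin 3 → ℚ}
    (hε : (∑ i, ε i).den = 1) (δ : ℚ) {L : Fin 3 → ℕ} (hL : ∑ i, L i = δ.den) :
    r ≤ outsideThree lam ε δ L := by
  have key := abs_ap (lam := fun (j : Fin 2) l => (E j.castSucc l : ℚ) / B)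
    (phi := fun l => -((E 2 l : ℚ) / B)) hB (fun a ha => rat_good h a ha) hr
    (ε := fun x => ε (idx x)) (s := (∑ i, ε i).num) (by
      rw [sum_idx ε]
      exact (Rat.coe_int_num_of_den_eq_one hε).symm)
    (D := fun x l => lam (idx x) l - ε (idx x)) (fun x l => by
      congr 1
      rw [hE]
      cases x with
      | none => simp [expo, idx]
      | some j => rfl) δ (fun x => L (idx x)) (by
      rw [sum_idx L]
      exact hL)
  unfold outside at key
  unfold outsideThree
  rw [sum_idx (fun i => (univ.filter fun l => ∀ j : ℕ, j ≤ L i →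
    (lam i l - ε i - j * δ).den ≠ 1).card)] at key
  exact key

/-- The theorem for systems. -/
theorem sys_ap {R : Type u} [CommRing R] [IsDomain R] [CharZero R] [Algebra.FiniteType ℤ R]
    (hr : 2 ≤ r) (α : Fin 2 → R) (hα : ∀ i j, i ≠ j → IsUnit (α i - α j))
    (A : Fin 2 → Matrix (Fin r) (Fin r) R) (hirr : AbsIrreducible α A)
    (lam : Fin 3 → Fin r → ℚ) (hlam : ∀ j : Fin 2, HasExponents (A j) (lam j.castSucc))
    (hphi : HasExponents (∑ j, A j) (fun l => -lam 2 l)) {ε : Fin 3 → ℚ}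
    (hε : (∑ i, ε i).den = 1) (δ : ℚ) {L : Fin 3 → ℕ} (hL : ∑ i, L i = δ.den)
    (hlt : outsideThree lam ε δ L < r) (N : ℕ)
    (hN : 0 < N) (hNlam : ∀ i l, ∃ m : ℤ, (N : ℚ) * lam i l = m) : BadSys α A N := by
  have hNq : (N : ℚ) ≠ 0 := by exact_mod_cast hN.ne'
  choose E hE using hNlam
  have hE' : ∀ i l, lam i l = (E i l : ℚ) / N := by
    intro i l
    rw [← hE]
    field_simp
  by_contra hbad
  refine absurd (good_ap hN hr (good_of_not_bad α hα A hirr hN E (fun j => ?_) ?_ hbad) hE' hε δ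
    hL) (not_le.2 hlt)
  · have h1 : (fun l => (E j.castSucc l : ℚ) / N) = lam j.castSucc := funext fun l => (hE' _ l).symm
    rw [h1]
    exact hlam j
  · have h1 : (fun l => -((E 2 l : ℚ) / N)) = fun l => -lam 2 l := funext fun l => by rw [hE']
    rw [h1]
    exact hphi

end Pool.Agent.R340.SG
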