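import Pool.Agent.R340.SG.Line
import Pool.Agent.R340.SG.Three2
import Pool.Agent.R927.FW

set_option autoImplicit false

/-!
The inequalities for line subbundles for irreducible systems with any number of singular points.
-/

open Finset

namespace Pool.Agent.R340.SG

open Pool.Agent.Y227.SS Pool.Agent.W432.PC Pool.Agent.TH571.PCV Pool.Agent.R340.SY Pool.Agent.R927

universe u

section

variable {R : Type u} [CommRing R] [IsDomain R] [CharZero R] [Algebra.FiniteType ℤ R] {n r : ℕ}

theorem sys_line (hr : 1 < r) (α : Fin n → R) (hα : ∀ i j, i ≠ j → IsUnit (α i - α j))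
    (A : Fin n → Matrix (Fin r) (Fin r) R) (lam : Fin n → Fin r → ℚ) (phi : Fin r → ℚ)
    (hlam : ∀ j, HasExponents (A j) (lam j)) (hphi : HasExponents (∑ j, A j) phi)
    (hirr : AbsIrreducible α A) {ε : Option (Fin n) → ℚ}
    {D : Option (Fin n) → Fin r → ℚ} (hD : IsTwist lam phi ε D) :
    (∀ B, ExpDen lam phi B → BadMod α A B) ∨ LineAll D := by
  by_cases h : ∀ B, ExpDen lam phi B → BadMod α A B
  · exact Or.inl h
  · right
    push Not at h
    obtain ⟨B, hB, hbad⟩ := h
    exact abs_line hB.1 (fun a ha => sys_stable α hα A lam phi hlam hphi hirr hB hbad a ha) hr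
      (s := 0) (by rw [hD.1]; simp) hD.eq

theorem sys_progression (hr : 1 < r) (α : Fin n → R) (hα : ∀ i j, i ≠ j → IsUnit (α i - α j))
    (A : Fin n → Matrix (Fin r) (Fin r) R) (lam : Fin n → Fin r → ℚ) (phi : Fin r → ℚ)
    (hlam : ∀ j, HasExponents (A j) (lam j)) (hphi : HasExponents (∑ j, A j) phi)
    (hirr : AbsIrreducible α A) {ε : Option (Fin n) → ℚ}
    {D : Option (Fin n) → Fin r → ℚ} (hD : IsTwist lam phi ε D) (δ : ℚ)
    (L : Option (Fin n) → ℕ) (hL : ∑ x, L x = δ.den) (hlt : outside D δ L < r) (B : ℕ)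
    (hB : ExpDen lam phi B) : BadMod α A B := by
  by_contra hbad
  exact absurd (abs_ap hB.1 (fun a ha => sys_stable α hα A lam phi hlam hphi hirr hB hbad a ha) hr
    (s := 0) (by rw [hD.1]; simp) hD.eq δ L hL) (not_le.2 hlt)

/-- Two exponents at one of the points. -/
theorem sys_two (hr : 1 < r) (α : Fin n → R) (hα : ∀ i j, i ≠ j → IsUnit (α i - α j))
    (A : Fin n → Matrix (Fin r) (Fin r) R) (lam : Fin n → Fin r → ℚ) (phi : Fin r → ℚ)
    (hlam : ∀ j, HasExponents (A j) (lam j)) (hphi : HasExponents (∑ j, A j) phi)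
    (hirr : AbsIrreducible α A) {ε : Option (Fin n) → ℚ}
    {D : Option (Fin n) → Fin r → ℚ} (hD : IsTwist lam phi ε D) {x z : Option (Fin n)}
    (hxz : x ≠ z) (δ : ℚ) (hz : ∀ l, ∃ w : ℤ, (δ.den : ℚ) * D z l = w)
    (hlt : (univ.filter fun l => (D x l).den ≠ 1 ∧ (D x l - δ).den ≠ 1).card +
      ∑ w ∈ (univ.erase x).erase z, (univ.filter fun l => (D w l).den ≠ 1).card < r) (B : ℕ)
    (hB : ExpDen lam phi B) : BadMod α A B := by
  obtain ⟨L, hL, hle⟩ := outside_le hxz δ hz
  exact sys_progression hr α hα A lam phi hlam hphi hirr hD δ L hL (lt_of_le_of_lt hle hlt) B hB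

end

end Pool.Agent.R340.SG
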