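import Pool.Agent.R340.MI.SysTwist

set_option autoImplicit false

/-!
Three points: at least `r` exponents lie outside arcs of total length one, and a point with at most two
classes of exponents.
-/

open Finset

namespace Pool.Agent.R340.SG

open Pool.Agent.Y227.SS Pool.Agent.W432.PC Pool.Agent.TH571.PCV
open Pool.Agent.R340.MI
open Pool.Agent.R340.P3 (emod_congr)

universe u

variable {r N : ℕ}

lemma emod_le_self {x : ℤ} {M : ℕ} (hx : 0 ≤ x) : x % (M : ℤ) ≤ x := by
  have h1 := Int.mul_ediv_add_emod x M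
  have h2 : 0 ≤ (M : ℤ) * (x / M) :=
    mul_nonneg (by positivity) (Int.ediv_nonneg hx (by positivity))
  linarith

lemma emod_add_le (hN : 0 < N) {x c : ℤ} (hc : 0 ≤ c) :
    x % N + (c - x) % N ≤ c + N * (if c < x % N then 1 else 0) := by
  have hNz : (0 : ℤ) < N := by exact_mod_cast hN
  have h0 := Int.emod_nonneg x hNz.ne'
  have h1 := Int.emod_lt_of_pos x hNz
  have h2 : (c - x) % N = (c - x % N) % N := by
    refine emod_congr ⟨-(x / N), ?_⟩
    have := Int.mul_ediv_add_emod x N
    linear_combination this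
  rw [h2]
  split_ifs with h
  · have h3 : (c - x % N) % (N : ℤ) = c - x % N + N := by
      rw [← Int.add_emod_right, Int.emod_eq_of_lt (by omega) (by omega)]
    rw [h3]
    omega
  · push Not at h
    have h4 : (c - x % N) % (N : ℤ) ≤ c - x % N := emod_le_self (by omega)
    omega

/-- **The arc inequality for three points.** -/
theorem good_arcs (hN : 0 < N) (hr : 2 ≤ r) {E : Fin 3 → Fin r → ℤ} (h : Good N E)
    {β : Fin 3 → ℤ} (hβ : (N : ℤ) ∣ ∑ i, β i) {u : ℤ} (hu : IsCoprime u (N : ℤ))
    {γ : Fin 3 → ℤ} (hγ : ∀ i, 0 ≤ γ i) (hγ1 : ∑ i, γ i = N) :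
    r ≤ ∑ i, (univ.filter fun l => γ i < (u * (E i l - β i)) % N).card := by
  classical
  have hNz : (0 : ℤ) < N := by exact_mod_cast hN
  obtain ⟨v, w, hvw⟩ := hu
  have hA := h.residues hN hr hβ u ⟨v, w, hvw⟩
  have hβ' : (N : ℤ) ∣ ∑ i, (β i + v * γ i) := by
    rw [sum_add_distrib, ← mul_sum, hγ1]
    exact dvd_add hβ (dvd_mul_left _ _)
  have hB := h.residues hN hr hβ' (-u) (IsCoprime.neg_left ⟨v, w, hvw⟩)
  have e : ∀ i l, (-u * (E i l - (β i + v * γ i))) % (N : ℤ) =
      (γ i - u * (E i l - β i)) % N := by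
    intro i l
    refine emod_congr ⟨-(w * γ i), ?_⟩
    linear_combination γ i * hvw
  simp only [e] at hB
  have h2 := sum_le_sum fun (i : Fin 3) (_ : i ∈ univ) => sum_le_sum fun (l : Fin r)
    (_ : l ∈ univ) => emod_add_le (x := u * (E i l - β i)) hN (hγ i)
  simp only [sum_add_distrib, sum_const, card_univ, Fintype.card_fin, nsmul_eq_mul,
    ← mul_sum, hγ1] at h2
  have h3 : (N : ℤ) * r ≤ N * ∑ i, ∑ l, (if γ i < (u * (E i l - β i)) % N then (1 : ℤ) else 0) := by
    linarith
  have h4 := le_of_mul_le_mul_left h3 hNz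
  have h5 : ∀ i, ((univ.filter fun l => γ i < (u * (E i l - β i)) % (N : ℤ)).card : ℤ) =
      ∑ l, (if γ i < (u * (E i l - β i)) % N then (1 : ℤ) else 0) := by
    intro i
    rw [card_filter]
    push_cast
    rfl
  have h6 : ((r : ℕ) : ℤ) ≤
      ((∑ i, (univ.filter fun l => γ i < (u * (E i l - β i)) % (N : ℤ)).card : ℕ) : ℤ) := by
    push_cast
    rw [sum_congr rfl fun i _ => h5 i]
    exact h4
  exact_mod_cast h6

/-- **There is no point with only two exponents**, one difference being prime to the denominator. -/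
theorem good_no_two (hN : 0 < N) (hr : 2 ≤ r) {E : Fin 3 → Fin r → ℤ} (h : Good N E)
    {x y z : Fin 3} (hxy : x ≠ y) (hyz : y ≠ z) (hxz : x ≠ z) (i : Fin r) {δ u : ℤ}
    (hu : IsCoprime u (N : ℤ)) (hδ : (N : ℤ) ∣ u * δ - 1)
    (h2 : ∀ l, (N : ℤ) ∣ E x l - E x i ∨ (N : ℤ) ∣ E x l - E x i - δ) : False := by
  classical
  have hNz : (0 : ℤ) < N := by exact_mod_cast hN
  have hr0 : 0 < r := by omega
  set k : Fin r := ⟨0, hr0⟩
  let β : Fin 3 → ℤ := fun w => if w = x then E x i else if w = y then -(E x i + E z k) else E z k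
  let γ : Fin 3 → ℤ := fun w => if w = x then 1 else if w = y then N - 1 else 0
  have hsum3 : ∀ {M : Type} [AddCommMonoid M] (f : Fin 3 → M), ∑ w, f w = f x + f y + f z := by
    intro M _ f
    have hun : (univ : Finset (Fin 3)) = {x, y, z} := by
      symm
      rw [← card_eq_iff_eq_univ, Fintype.card_fin, card_eq_three]
      exact ⟨x, y, z, hxy, hxz, hyz, rfl⟩
    rw [hun, sum_insert (by simp [hxy, hxz]), sum_insert (by simpa using hyz), sum_singleton,
      add_assoc]
  have bx : β x = E x i := by simp [β]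
  have by' : β y = -(E x i + E z k) := by simp [β, hxy.symm]
  have bz : β z = E z k := by simp [β, hxz.symm, hyz.symm]
  have gx : γ x = 1 := by simp [γ]
  have gy : γ y = N - 1 := by simp [γ, hxy.symm]
  have gz : γ z = 0 := by simp [γ, hxz.symm, hyz.symm]
  have hβ : (N : ℤ) ∣ ∑ w, β w := by
    rw [hsum3, bx, by', bz]
    exact ⟨0, by ring⟩
  have hγ : ∀ w, 0 ≤ γ w := by
    intro w
    simp only [γ]
    split_ifs <;> omega
  have hγ1 : ∑ w, γ w = N := by
    rw [hsum3, gx, gy, gz]
    ring
  have key := good_arcs hN hr h hβ hu hγ hγ1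
  rw [hsum3] at key
  have cx : (univ.filter fun l => γ x < (u * (E x l - β x)) % (N : ℤ)).card = 0 := by
    rw [card_eq_zero, filter_eq_empty_iff]
    intro l _ hl
    rw [gx, bx] at hl
    rcases h2 l with h3 | h3
    · have h4 : (u * (E x l - E x i)) % (N : ℤ) = 0 := Int.emod_eq_zero_of_dvd (h3.mul_left u)
      omega
    · have h4 : (u * (E x l - E x i)) % (N : ℤ) = 1 % N := by
        refine emod_congr ?_
        have h5 := dvd_add (h3.mul_left u) hδ
        have h6 : u * (E x l - E x i - δ) + (u * δ - 1) = u * (E x l - E x i) - 1 := by ring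
        rwa [h6] at h5
      have h7 : (1 : ℤ) % N ≤ 1 := emod_le_self (by norm_num)
      omega
  have cy : (univ.filter fun l => γ y < (u * (E y l - β y)) % (N : ℤ)).card = 0 := by
    rw [card_eq_zero, filter_eq_empty_iff]
    intro l _ hl
    rw [gy] at hl
    have h3 := Int.emod_lt_of_pos (u * (E y l - β y)) hNz
    omega
  have cz : (univ.filter fun l => γ z < (u * (E z l - β z)) % (N : ℤ)).card < r := by
    have h3 : (univ.filter fun l => γ z < (u * (E z l - β z)) % (N : ℤ)) ⊂ univ := by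
      rw [ssubset_univ_iff]
      intro h0
      have h4 := h0 ▸ mem_univ k
      have h5 := (mem_filter.1 h4).2
      rw [gz, bz, sub_self, mul_zero, Int.zero_emod] at h5
      exact lt_irrefl _ h5
    have h6 := card_lt_card h3
    rwa [card_univ, Fintype.card_fin] at h6
  omega

end Pool.Agent.R340.SG
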